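import Mathlib

set_option autoImplicit false

/-!
Definitions for `MP_9410e4_ag.IndependentFibrations`.
-/

namespace Pool.Agent.Helper16.IF

open AlgebraicGeometry CategoryTheory

universe u

/-- `E / B` is the function field of a curve of genus zero: `E = B(x, y)` with `x` transcendental
over `B` and `y ^ 2 = a x ^ 2 + b` for nonzero `a` and `b` in `B`. -/
def IsGenusZero {K E : Type u} [Field K] [Field E] [Algebra K E] (B : IntermediateField K E) :
    Prop :=
  ∃ (x y : E) (a b : B), Transcendental B x ∧ a ≠ 0 ∧ b ≠ 0 ∧ y ^ 2 = a * x ^ 2 + b ∧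
    IntermediateField.adjoin B {x, y} = ⊤

/-- `E / B` is the function field of a curve of genus one: `B` is algebraically closed in `E` and,
with `B'` the algebraic closure of `B` in an algebraic closure of `E`, the compositum of `E` and
`B'` is the function field `B'(x, y)` of an elliptic curve `y ^ 2 = x ^ 3 + a x + b` over `B'`. -/
def IsGenusOne {K E : Type u} [Field K] [Field E] [Algebra K E] (B : IntermediateField K E) :
    Prop :=
  (∀ e : E, IsAlgebraic B e → e ∈ B) ∧
  ∃ (x y : AlgebraicClosure E) (a b : algebraicClosure B (AlgebraicClosure E)),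
    Transcendental B x ∧ y ^ 2 = x ^ 3 + a * x + b ∧ 4 * a ^ 3 + 27 * b ^ 2 ≠ 0 ∧
    IntermediateField.adjoin (algebraicClosure B (AlgebraicClosure E)) {x, y}
      = IntermediateField.adjoin (algebraicClosure B (AlgebraicClosure E))
        (Set.range (algebraMap E (AlgebraicClosure E)))

/-- The points of the `K`-scheme `X` which are images of `K`-morphisms `Spec L → X`. -/
def ratPts (K : Type u) [Field K] (L : Type u) [Field L] [Algebra K L] (X : Scheme.{u})
    (s : X ⟶ Spec (CommRingCat.of K)) : Set X :=
  {x | ∃ p : Spec (CommRingCat.of L) ⟶ X,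
    p ≫ s = Spec.map (CommRingCat.ofHom (algebraMap K L)) ∧ x ∈ Set.range p}

/-- The `K`-scheme `X` is potentially dense: `X(L)` is Zariski dense in `X` for some finite
extension `L` of `K`. -/
inductive PotentiallyDense (K : Type u) [Field K] (X : Scheme.{u})
    (s : X ⟶ Spec (CommRingCat.of K)) : Prop
  | intro (L : Type u) [Field L] [Algebra K L] [FiniteDimensional K L]
      (h : Dense (ratPts K L X s)) : PotentiallyDense K X s

/-- The `K`-scheme `X` is birational over `K` to the affine scheme `Spec A`: nonempty open
subschemes of the two are isomorphic over `K`. -/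
def BirationalOver (K : Type u) [Field K] (X : Scheme.{u}) (s : X ⟶ Spec (CommRingCat.of K))
    (A : Type u) [CommRing A] [Algebra K A] : Prop :=
  ∃ (U : X.Opens) (V : (Spec (CommRingCat.of A)).Opens) (e : (U : Scheme.{u}) ≅ (V : Scheme.{u})),
    Nonempty U ∧ e.hom ≫ V.ι ≫ Spec.map (CommRingCat.ofHom (algebraMap K A)) = U.ι ≫ s

end Pool.Agent.Helper16.IF
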