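import Pool.Agent.Helper16.IF.Defs
import Pool.Agent.Helper15.WE23

set_option autoImplicit false

/-!
Varieties with independent fibrations in curves of genus zero or one are potentially dense: the
theorem in terms of the definitions of `IF/Defs.lean`.
-/

namespace Pool.Agent.Helper16.IF

open AlgebraicGeometry CategoryTheory

universe u

theorem birational_old {K : Type u} [Field K] {X : Scheme.{u}} {s : X ⟶ Spec (CommRingCat.of K)}
    {A : Type u} [CommRing A] [Algebra K A] (h : BirationalOver K X s A) :
    Pool.Agent.Helper15.BirationalOver K X (Spec (CommRingCat.of A)) s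
      (Spec.map (CommRingCat.ofHom (algebraMap K A))) := by
  obtain ⟨U, V, e, hU, he⟩ := h
  refine ⟨U, U.ι, e.hom ≫ V.ι, inferInstance, inferInstance, hU, ?_⟩
  rw [Category.assoc, he]

theorem dense_new {K : Type u} [Field K] {X : Scheme.{u}} {s : X ⟶ Spec (CommRingCat.of K)}
    (h : Pool.Agent.Helper15.PotentiallyDense K X s) : PotentiallyDense K X s := by
  obtain ⟨L, i1, i2, i3, h4⟩ := h
  exact PotentiallyDense.intro L h4

theorem main (K : Type u) [Field K] [NumberField K] (A : Type u) [CommRing A] [IsDomain A]
    [Algebra K A] [Algebra.FiniteType K A] {ι : Type u}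
    (B : ι → IntermediateField K (FractionRing A))
    (h : ∀ i, IsGenusZero (B i) ∨ IsGenusOne (B i))
    (hB : ∀ e : FractionRing A, (∀ i, e ∈ B i) → IsAlgebraic K e)
    (X : Scheme.{u}) (s : X ⟶ Spec (CommRingCat.of K)) [IrreducibleSpace X]
    (hX : BirationalOver K X s A) : PotentiallyDense K X s := by
  have hess : Algebra.EssFiniteType K (FractionRing A) :=
    Algebra.EssFiniteType.comp K A (FractionRing A)
  have hfg : (⊤ : IntermediateField K (FractionRing A)).FG := IntermediateField.fg_top K _
  refine dense_new (Pool.Agent.Helper15.PotentiallyDense.of_birational K X _ s _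
    (birational_old hX) (Pool.Agent.Helper15.WE.main K (FractionRing A) hfg B
    (fun i => ?_) hB A (IsScalarTower.toAlgHom K A (FractionRing A))
    (IsFractionRing.injective A (FractionRing A))))
  rcases h i with ⟨x, y, a, b, h1, h2, h3, h4, h5⟩ | hi
  · have hdeg : (Polynomial.C a * Polynomial.X ^ 2 + Polynomial.C b : Polynomial (B i)).natDegree
        = 2 := by
      compute_degree!
    refine Or.inl ⟨x, y, Polynomial.C a * Polynomial.X ^ 2 + Polynomial.C b, h1, ?_, ?_, ?_, ?_,
      h5⟩
    · have hC : IsUnit (2 * a * b : B i) := by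
        have : (2 : B i) ≠ 0 := two_ne_zero
        exact isUnit_iff_ne_zero.mpr (mul_ne_zero (mul_ne_zero this h2) h3)
      rw [Polynomial.separable_def']
      have hb : (b : B i) * b⁻¹ = 1 := mul_inv_cancel₀ h3
      refine ⟨Polynomial.C b⁻¹, - Polynomial.C (b⁻¹ * 2⁻¹) * Polynomial.X, ?_⟩
      have h22 : (2 : B i) * 2⁻¹ = 1 := mul_inv_cancel₀ two_ne_zero
      have e1 : Polynomial.derivative (Polynomial.C a * Polynomial.X ^ 2 + Polynomial.C b :
          Polynomial (B i)) = Polynomial.C (2 * a) * Polynomial.X := by
        simp only [Polynomial.derivative_add, Polynomial.derivative_mul, Polynomial.derivative_C,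
          Polynomial.derivative_X_pow, zero_mul, zero_add, add_zero]
        push_cast
        simp only [map_mul, map_ofNat, pow_one]
        ring
      rw [e1]
      have e2 : (Polynomial.C b : Polynomial (B i)) * Polynomial.C b⁻¹ = 1 := by
        rw [← Polynomial.C_mul, hb, Polynomial.C_1]
      have e3 : (Polynomial.C 2 : Polynomial (B i)) * Polynomial.C 2⁻¹ = 1 := by
        rw [← Polynomial.C_mul, h22, Polynomial.C_1]
      simp only [map_mul]
      linear_combination (1 : Polynomial (B i)) * e2
        - Polynomial.C b⁻¹ * Polynomial.C a * Polynomial.X ^ 2 * e3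
    · rw [hdeg]; norm_num
    · rw [hdeg]; norm_num
    · rw [h4]
      simp [Polynomial.aeval_def]
  · exact Or.inr ⟨hi.1, hi.2⟩

end Pool.Agent.Helper16.IF
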